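import Pool.Agent.SRG.Final

/-!
Semi-random pointwise ergodic theorem along the return times `p ^ n y mod 1 ∈ (0, n ^ (-a))`.
-/

open MeasureTheory Pool.Agent.SRG

universe u

/-- For every `a ∈ (0, 1/2)`, every integer `p ≥ 2` and Lebesgue-almost every `y ∈ [0, 1]`, the set
of return times `{n ≥ 1 : p ^ n y mod 1 ∈ (0, n ^ (-a))}` is infinite and its increasing
enumeration `b 1 < b 2 < ...` is semi-random good: for all commuting measure preserving
transformations `T₁, T₂` of a probability space and all bounded functions `f₁, f₂`,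
`(1/N) ∑_{n ≤ N} f₁ (T₁ ^ n x) f₂ (T₂ ^ (b n) x) → E(f₁ | I(T₁)) (x) E(f₂ | I(T₂)) (x)` a.e. -/
theorem Pool.Agent.Results.MP_6b6241_an.SemiRandomReturnTimes.result
    (a : ℝ) (ha : 0 < a) (ha2 : a < 1 / 2) (p : ℕ) (hp : 2 ≤ p) :
    ∀ᵐ y ∂(volume.restrict (Set.Icc (0 : ℝ) 1)), (returnSet a p y).Infinite ∧
      SemiRandomGood.{u} (fun n => Nat.nth (· ∈ returnSet a p y) (n - 1)) :=
  semiRandom a ha ha2 p hp
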